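import Pool.Agent.H33.BR.SAK

/-! Module GGG: good data, good output in the second block, not localized. -/

set_option autoImplicit false

namespace Pool.Agent.H33.BR

open MeasureTheory Set FourierTransform Filter
open Pool.Agent.H84.B2 Pool.Agent.H84.BR Pool.Agent.H83.AR Pool.Agent.H93.AR Pool.Agent.H83.LS
  Pool.Agent.H54.LS Pool.Agent.H14.LS
open scoped ENNReal NNReal SchwartzMap

theorem p2_sub (a b : ℕ) (x y : EE (a + b)) : p2 a b (x - y) = p2 a b x - p2 a b y := by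
  ext i; rfl

theorem ct_p2 (a b : ℕ) : Continuous (fun x : EE (a + b) => ‖p2 a b x‖) :=
  (cd_p2 a b).continuous.norm

theorem p2_lip (a b : ℕ) (x y : EE (a + b)) : |‖p2 a b x‖ - ‖p2 a b y‖| ≤ ‖x - y‖ := by
  refine (abs_norm_sub_norm_le _ _).trans ?_
  rw [← p2_sub]
  exact p2_le a b _

/-- shells in the second block -/
def S2 (a b i : ℕ) : Set (EE (a + b)) :=
  {x | 8 * (i : ℝ) ≤ ‖p2 a b x‖ ∧ ‖p2 a b x‖ < 8 * ((i : ℝ) + 1)}

/-- fattened shells -/
def N2 (a b i : ℕ) : Set (EE (a + b)) :=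
  {x | 8 * ((i : ℝ) - 1) ≤ ‖p2 a b x‖ ∧ ‖p2 a b x‖ < 8 * ((i : ℝ) + 2)}

theorem S2_meas (a b i : ℕ) : MeasurableSet (S2 a b i) :=
  (measurableSet_le measurable_const (ct_p2 a b).measurable).inter
    (measurableSet_lt (ct_p2 a b).measurable measurable_const)

theorem N2_meas (a b i : ℕ) : MeasurableSet (N2 a b i) :=
  (measurableSet_le measurable_const (ct_p2 a b).measurable).inter
    (measurableSet_lt (ct_p2 a b).measurable measurable_const)

theorem ex_shell {a b : ℕ} (x : EE (a + b)) : ∃ i, x ∈ S2 a b i := by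
  have h0 : 0 ≤ ‖p2 a b x‖ / 8 := by positivity
  refine ⟨⌊‖p2 a b x‖ / 8⌋₊, ?_, ?_⟩
  · have := Nat.floor_le h0
    rw [le_div_iff₀ (by norm_num)] at this
    linarith
  · have := Nat.lt_floor_add_one (‖p2 a b x‖ / 8)
    rw [div_lt_iff₀ (by norm_num)] at this
    linarith

theorem far2 {a b i : ℕ} {x y : EE (a + b)} (hx : x ∈ S2 a b i) (hy : y ∉ N2 a b i) :
    8 ≤ ‖x - y‖ := by
  have h1 := p2_lip a b x y
  have h2 : ‖p2 a b y‖ < 8 * ((i : ℝ) - 1) ∨ 8 * ((i : ℝ) + 2) ≤ ‖p2 a b y‖ := by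
    by_contra h
    push Not at h
    exact hy h
  obtain ⟨h3, h4⟩ := hx
  rcases h2 with h2 | h2
  · have := le_abs_self (‖p2 a b x‖ - ‖p2 a b y‖)
    linarith
  · have := neg_abs_le (‖p2 a b x‖ - ‖p2 a b y‖)
    linarith

theorem overlap2 {a b : ℕ} (x : EE (a + b)) (c : ℝ≥0∞) :
    ∑' i, (N2 a b i).indicator (fun _ => c) x ≤ 3 * c := by
  obtain ⟨k, hk1, hk2⟩ := ex_shell x
  have h1 : ∀ i, i ∉ Finset.Icc (k - 1) (k + 1) → (N2 a b i).indicator (fun _ => c) x = 0 := by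
    intro i hi
    apply indicator_of_notMem
    rintro ⟨h2, h3⟩
    apply hi
    rw [Finset.mem_Icc]
    have h4 : (i : ℝ) < k + 2 := by linarith
    have h5 : (k : ℝ) < i + 2 := by linarith
    have h6 : i < k + 2 := by exact_mod_cast h4
    have h7 : k < i + 2 := by exact_mod_cast h5
    omega
  rw [tsum_eq_sum (s := Finset.Icc (k - 1) (k + 1)) (fun i hi => h1 i hi)]
  refine le_trans (Finset.sum_le_card_nsmul _ _ c (fun i _ => indicator_le_self' (by simp) x)) ?_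
  rw [nsmul_eq_mul]
  gcongr
  rw [Nat.card_Icc]
  have : k + 1 + 1 - (k - 1) ≤ 3 := by omega
  exact_mod_cast this

theorem m2_meas (a b : ℕ) (lam Lam : ℝ) :
    Measurable fun q : ℝ × EE (a + b) => m2 a b lam Lam q.1 q.2 := by
  unfold m2
  refine (mT_meas lam).mul (Complex.measurable_ofReal.comp ?_)
  exact chi_smooth.continuous.measurable.comp
    (((ct_p2 a b).measurable.comp measurable_snd).div_const _)

theorem m2_meas' (a b : ℕ) (lam Lam t : ℝ) : Measurable (m2 a b lam Lam t) := by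
  have h := (m2_meas a b lam Lam).comp (measurable_prodMk_left (x := t))
  exact h

theorem m2_int (a b : ℕ) {lam : ℝ} (hl : 0 < lam) (Lam t : ℝ) : Integrable (m2 a b lam Lam t) := by
  refine (mT_int hl t).norm.mono' (m2_meas' a b lam Lam t).aestronglyMeasurable
    (Eventually.of_forall fun ξ => ?_)
  unfold m2
  rw [norm_mul, Complex.norm_real]
  exact mul_le_of_le_one_right (norm_nonneg _) (by rw [Real.norm_eq_abs]; exact chi_abs_le _)

theorem MK_bdd {d : ℕ} (m : EE d → ℂ) (z : EE d) : ‖MK m z‖ ≤ ∫ ξ, ‖m ξ‖ := by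
  unfold MK
  refine le_trans (norm_integral_le_integral_norm _) (le_of_eq ?_)
  congr 1; ext ξ
  rw [norm_mul, norm_e, one_mul]

/-- localization -/
theorem loc2 {a b i : ℕ} {m g : EE (a + b) → ℂ} (hm : Integrable m) (hg : Integrable g)
    {x : EE (a + b)} (hx : x ∈ S2 a b i) :
    ‖MM m g x‖ₑ ≤ ‖MM m ((N2 a b i).indicator g) x‖ₑ +
      ∫⁻ y, {z : EE (a + b) | 8 ≤ ‖z‖}.indicator (fun z => ‖MK m z‖ₑ) (x - y) * ‖g y‖ₑ := by
  have hgi := hg.indicator (N2_meas a b i)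
  have hgc := hg.indicator (N2_meas a b i).compl
  have hsum : ∀ y, (N2 a b i).indicator g y + (N2 a b i)ᶜ.indicator g y = g y := by
    intro y
    exact congrFun (indicator_self_add_compl (N2 a b i) g) y
  have hI : ∀ h : EE (a + b) → ℂ, Integrable h → Integrable fun y => MK m (x - y) * h y := by
    intro h hh
    apply hh.bdd_mul (c := ∫ ξ, ‖m ξ‖)
    · exact ((MK_continuous hm).comp (continuous_const.sub continuous_id)).aestronglyMeasurable
    · exact Eventually.of_forall fun y => MK_bdd m _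
  rw [MM_conv hm hg, MM_conv hm hgi]
  have h1 : ∫ y, MK m (x - y) * g y = (∫ y, MK m (x - y) * (N2 a b i).indicator g y) +
      ∫ y, MK m (x - y) * (N2 a b i)ᶜ.indicator g y := by
    rw [← integral_add (hI _ hgi) (hI _ hgc)]
    congr 1; ext y
    rw [← mul_add, hsum]
  rw [h1]
  refine le_trans (enorm_add_le _ _) ?_
  gcongr
  refine le_trans (enorm_integral_le_lintegral_enorm _) ?_
  refine lintegral_mono fun y => ?_
  by_cases hy : y ∈ N2 a b i
  · rw [indicator_of_notMem (by simp [hy]), mul_zero, enorm_zero]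
    positivity
  · rw [indicator_of_mem (by simpa using hy), enorm_mul, indicator_of_mem]
    exact far2 hx hy

theorem aq_ind (hAQ : T_AQP) {a b i : ℕ} {L A : ℝ} (ha : 1 ≤ a) (hb : 1 ≤ b) (hL : 1 ≤ L)
    {f : EE (a + b) → ℂ} (hf : BI A f) :
    AQ a b L ((N2 a b i).indicator f) = (N2 a b i).indicator (AQ a b L f) := by
  classical
  obtain ⟨c, hc⟩ : ∃ c : ℝ → ℝ → ℂ, c = fun _ h =>
    if 8 * ((i : ℝ) - 1) ≤ h ∧ h < 8 * ((i : ℝ) + 2) then 1 else 0 := ⟨_, rfl⟩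
  have key : ∀ g : EE (a + b) → ℂ, (N2 a b i).indicator g =
      fun x => c ‖p1 a b x‖ ‖p2 a b x‖ * g x := by
    intro g
    funext x
    by_cases hx : x ∈ N2 a b i
    · rw [indicator_of_mem hx]
      have hx' : 8 * ((i : ℝ) - 1) ≤ ‖p2 a b x‖ ∧ ‖p2 a b x‖ < 8 * ((i : ℝ) + 2) := hx
      rw [hc]
      simp only
      rw [if_pos hx', one_mul]
    · rw [indicator_of_notMem hx]
      have hx' : ¬ (8 * ((i : ℝ) - 1) ≤ ‖p2 a b x‖ ∧ ‖p2 a b x‖ < 8 * ((i : ℝ) + 2)) := hx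
      rw [hc]
      simp only
      rw [if_neg hx', zero_mul]
  rw [key f, key (AQ a b L f)]
  funext x
  exact (hAQ a b L ha hb hL).2.2.2.2.1 f c hf.1 ⟨A, hf.2.2⟩ x

theorem bi_ind {d : ℕ} {A : ℝ} {f : EE d → ℂ} (h : BI A f) {s : Set (EE d)}
    (hs : MeasurableSet s) : BI A (s.indicator f) := by
  refine ⟨h.1.indicator hs, h.2.1.indicator hs, fun x => ?_⟩
  by_cases hx : x ∈ s
  · rw [indicator_of_mem hx]; exact h.2.2 x
  · rw [indicator_of_notMem hx, norm_zero]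
    exact le_trans (norm_nonneg _) (h.2.2 x)

theorem mc_m2 (a b : ℕ) {lam : ℝ} (hl : 0 < lam) (Lam t : ℝ) :
    mc a b (fun s => eta0 (s / (4 * lam))) (fun s => chi (s / Lam)) lam t = m2 a b lam Lam t := by
  ext ξ
  unfold mc m2
  by_cases h : chi (‖ξ‖ / lam) = 0
  · unfold mT
    rw [h]
    simp
  · have h1 := (chi_supp h).2
    rw [div_le_iff₀ hl] at h1
    have h2 := p1_le a b ξ
    have h3 : eta0 (‖p1 a b ξ‖ / (4 * lam)) = 1 := by
      apply eta0_one'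
      rw [div_le_one (by positivity)]
      linarith
    simp only
    rw [h3, one_mul]

theorem pf_ggg (hGG : T_GG) (hSV : T_SV2) (hAQ : T_AQP) (_hPLE : T_PLE) (hYG : T_YG)
    (_hJM : T_JM) : T_GGG := by
  intro a b p η ha hb hp hpab hη
  have ha1 : 1 ≤ a := by omega
  have hb1 : 1 ≤ b := by omega
  have hp0 : 0 ≤ p := by linarith
  obtain ⟨C₁, hC₁⟩ := hGG a b p η ha hb hp hpab hη
  obtain ⟨C₂, hC₂0, hC₂⟩ := hSV a b ha1 hb1
  refine ⟨2 ^ (p - 1) * ((Real.toNNReal C₂) ^ p + 3 * C₁), ?_⟩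
  intro lam Lam L A f hL hl hLl hLam hLam4 hf hfs
  have hl0 : 0 < lam := by linarith
  have hL2 : 1 ≤ L ^ 2 := one_le_pow₀ hL
  have h1a : lam ≤ Lam ^ 2 := by nlinarith
  have h1b : 1 ≤ Lam := by nlinarith
  have h1c : L ^ 2 ≤ 8 * Lam := by
    have : L ^ 2 * lam ≤ 4 * Lam * lam := by nlinarith
    have := le_of_mul_le_mul_right this hl0
    linarith
  have h1d : Real.sqrt lam ≤ Lam := by
    rw [← Real.sqrt_sq hLam.le]
    exact Real.sqrt_le_sqrt h1a
  have h1e : Real.sqrt lam ≤ 4 * lam := by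
    have h2 : Real.sqrt lam ≤ lam := by
      rw [Real.sqrt_le_left hl0.le]
      nlinarith
    linarith
  obtain ⟨aq1, aq2, aq3, aq4, -, -, -, -, -⟩ := hAQ a b L ha1 hb1 hL
  obtain ⟨g, hg⟩ : ∃ g, g = AQ a b L f := ⟨_, rfl⟩
  have hgB : BI A g := by
    rw [hg]
    exact ⟨aq1 f hf.1, aq4 f hf.1 hf.2.1, aq2 f A hf.1 hf.2.2⟩
  have hA : 0 ≤ A := (norm_nonneg _).trans (hf.2.2 0)
  have hgG : ∫⁻ x, ‖g x‖ₑ ^ 2 ≤ ∫⁻ x, ‖f x‖ₑ ^ 2 := by
    have := aq3 f 2 hf.1 (by norm_num)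
    rw [hg]
    simpa only [ENNReal.rpow_two] using this
  rw [← hg]
  obtain ⟨G, hG⟩ : ∃ G : ℝ≥0∞, G = ∫⁻ x, ‖f x‖ₑ ^ 2 := ⟨_, rfl⟩
  rw [← hG] at hgG ⊢
  obtain ⟨gi, hgi⟩ : ∃ gi : ℕ → EE (a + b) → ℂ, gi = fun i => (N2 a b i).indicator g := ⟨_, rfl⟩
  obtain ⟨far, hfar⟩ : ∃ far : ℝ → EE (a + b) → ℝ≥0∞, far = fun t x =>
    ∫⁻ y, {z : EE (a + b) | 8 ≤ ‖z‖}.indicator (fun z => ‖MK (m2 a b lam Lam t) z‖ₑ) (x - y) *
      ‖g y‖ₑ := ⟨_, rfl⟩
  obtain ⟨W, hW⟩ : ∃ W : Set (EE (a + b)), W = {x : EE (a + b) | L ^ 2 ≤ Lam * ‖p2 a b x‖} :=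
    ⟨_, rfl⟩
  have hWm : MeasurableSet W := by
    rw [hW]
    exact measurableSet_le measurable_const ((ct_p2 a b).measurable.const_mul _)
  rw [← hW]
  have hgii : ∀ i, BI A (gi i) := fun i => by rw [hgi]; exact bi_ind hgB (N2_meas a b i)
  have hmeas : ∀ i, Measurable fun q : ℝ × EE (a + b) =>
      ‖MM (m2 a b lam Lam q.1) (gi i) q.2‖ₑ ^ p := fun i =>
    (MM_meas (m2_meas a b lam Lam) (fourier_meas' (hgii i).2.1)).enorm.pow_const _
  have hSW : ∀ i, MeasurableSet (S2 a b i ∩ W) := fun i => (S2_meas a b i).inter hWm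
  have hpt : ∀ t, ∀ x ∈ W, ‖MM (m2 a b lam Lam t) g x‖ₑ ^ p ≤ 2 ^ (p - 1) * (far t x ^ p +
      ∑' i, (S2 a b i ∩ W).indicator (fun x => ‖MM (m2 a b lam Lam t) (gi i) x‖ₑ ^ p) x) := by
    intro t x hxW
    obtain ⟨k, hk⟩ := ex_shell x
    have h1 := (loc2 (m2_int a b hl0 Lam t) hgB.2.1 hk).trans_eq (add_comm _ _)
    refine le_trans (ENNReal.rpow_le_rpow h1 hp0) ?_
    refine le_trans (ENNReal.rpow_add_le_mul_rpow_add_rpow _ _ (by linarith)) ?_
    rw [hfar, hgi]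
    simp only
    gcongr
    have h2 : ‖MM (m2 a b lam Lam t) ((N2 a b k).indicator g) x‖ₑ ^ p =
        (S2 a b k ∩ W).indicator
          (fun x => ‖MM (m2 a b lam Lam t) ((N2 a b k).indicator g) x‖ₑ ^ p) x := by
      rw [indicator_of_mem (show x ∈ S2 a b k ∩ W from ⟨hk, hxW⟩)]
    rw [h2]
    exact ENNReal.le_tsum (f := fun i => (S2 a b i ∩ W).indicator
      (fun x => ‖MM (m2 a b lam Lam t) ((N2 a b i).indicator g) x‖ₑ ^ p) x) k
  have h2p : (2 : ℝ≥0∞) ^ (p - 1) ≠ ⊤ := ENNReal.rpow_ne_top_of_nonneg (by linarith) (by norm_num)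
  -- the far part
  have hF : ∀ t ∈ Icc (1 : ℝ) 2, ∫⁻ x, far t x ^ p ≤
      ((Real.toNNReal C₂ : ℝ≥0) : ℝ≥0∞) ^ p * ∫⁻ x, ‖g x‖ₑ ^ p := by
    intro t ht
    have hs : MeasurableSet {z : EE (a + b) | 8 ≤ ‖z‖} :=
      measurableSet_le measurable_const measurable_norm
    have hk : Measurable ({z : EE (a + b) | 8 ≤ ‖z‖}.indicator
        (fun z => ‖MK (m2 a b lam Lam t) z‖ₑ)) :=
      ((MK_continuous (m2_int a b hl0 Lam t)).measurable.enorm).indicator hs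
    have h3 := (hC₂ lam (4 * lam) Lam t (fun s => eta0 (s / (4 * lam))) (fun s => chi (s / Lam)) hl
      h1e le_rfl h1d hLam4 (Or.inl fun _ => rfl) (Or.inr fun _ => rfl) ht).2.2.2
    rw [mc_m2 a b hl0 Lam t] at h3
    rw [hfar]
    refine le_trans (hYG (EE (a + b)) volume _ (fun x => ‖g x‖ₑ) p hk hgB.1.enorm (by linarith)) ?_
    gcongr
    rw [lintegral_indicator hs]
    exact h3
  -- one shell
  have hS : ∀ i, ∫⁻ t in Icc (1 : ℝ) 2, ∫⁻ x in S2 a b i ∩ W,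
      ‖MM (m2 a b lam Lam t) (gi i) x‖ₑ ^ p ≤
      C₁ * ENNReal.ofReal (L ^ 2 * lam ^ η * A ^ (p - 2)) *
        ∫⁻ x, ‖(N2 a b i).indicator f x‖ₑ ^ 2 := by
    intro i
    have hgi' : gi i = AQ a b L ((N2 a b i).indicator f) := by
      rw [aq_ind hAQ ha1 hb1 hL hf, hgi, hg]
    rw [hgi']
    obtain ⟨h3, h4⟩ := hC₁ lam Lam L A ((N2 a b i).indicator f) hl h1a h1b hLam4 hL h1c
      (bi_ind hf (N2_meas a b i))
    have hsup : ∀ x, (N2 a b i).indicator f x ≠ 0 → x ∈ N2 a b i ∧ f x ≠ 0 := by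
      intro x hx
      have h5 : x ∈ N2 a b i := by
        by_contra h
        exact hx (indicator_of_notMem h f)
      rw [indicator_of_mem h5] at hx
      exact ⟨h5, hx⟩
    rcases lt_or_ge i 2 with hi | hi
    · refine le_trans (lintegral_mono fun t => lintegral_mono_set ?_) (h3 ?_)
      · rw [hW]
        exact inter_subset_right
      · intro x hx
        obtain ⟨h5, h6⟩ := hsup x hx
        refine ⟨hfs x h6, ?_⟩
        have h7 : (i : ℝ) ≤ 1 := by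
          have : i ≤ 1 := by omega
          exact_mod_cast this
        have := h5.2
        linarith
    · refine le_trans (lintegral_mono fun t => lintegral_mono_set ?_) (h4 i hi ?_)
      · intro x hx
        exact ⟨hx.1.1, hx.1.2.le⟩
      · intro x hx
        obtain ⟨h5, -⟩ := hsup x hx
        exact ⟨h5.1, h5.2.le⟩
  have hGi : ∑' i, ∫⁻ x, ‖(N2 a b i).indicator f x‖ₑ ^ 2 ≤ 3 * G := by
    rw [← lintegral_tsum]
    · rw [hG, ← lintegral_const_mul' _ _ (by norm_num)]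
      refine lintegral_mono fun x => ?_
      refine le_trans (le_of_eq ?_) (overlap2 x (‖f x‖ₑ ^ 2))
      congr 1; funext i
      by_cases hx : x ∈ N2 a b i
      · simp only [indicator_of_mem hx]
      · simp [indicator_of_notMem hx]
    · intro i
      exact ((hf.1.indicator (N2_meas a b i)).enorm.pow_const 2).aemeasurable
  have hstep : ∀ t ∈ Icc (1 : ℝ) 2, ∫⁻ x in W, ‖MM (m2 a b lam Lam t) g x‖ₑ ^ p ≤ 2 ^ (p - 1) *
      (((Real.toNNReal C₂ : ℝ≥0) : ℝ≥0∞) ^ p * (ENNReal.ofReal (A ^ (p - 2)) * G) +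
        ∑' i, ∫⁻ x in S2 a b i ∩ W, ‖MM (m2 a b lam Lam t) (gi i) x‖ₑ ^ p) := by
    intro t ht
    refine le_trans (setLIntegral_mono' hWm fun x hx => hpt t x hx) ?_
    refine le_trans (setLIntegral_le_lintegral _ _) ?_
    rw [lintegral_const_mul' _ _ h2p]
    refine mul_le_mul_right ?_ _
    have hm2 : Measurable fun x => ∑' i, (S2 a b i ∩ W).indicator
        (fun x => ‖MM (m2 a b lam Lam t) (gi i) x‖ₑ ^ p) x := by
      refine Measurable.tsum fun i => ?_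
      exact ((hmeas i).comp (measurable_prodMk_left (x := t))).indicator (hSW i)
    rw [lintegral_add_right _ hm2]
    refine add_le_add ?_ (le_of_eq ?_)
    · refine le_trans (hF t ht) ?_
      refine mul_le_mul_right (le_trans (pow_split hp hA fun x => ?_)
        (mul_le_mul_right hgG _)) _
      rw [← ofReal_norm]
      exact ENNReal.ofReal_le_ofReal (hgB.2.2 x)
    · rw [lintegral_tsum]
      · congr 1; funext i
        rw [lintegral_indicator (hSW i)]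
      · intro i
        exact (((hmeas i).comp (measurable_prodMk_left (x := t))).indicator
          (hSW i)).aemeasurable
  have hmain : ∫⁻ t in Icc (1 : ℝ) 2, ∫⁻ x in W, ‖MM (m2 a b lam Lam t) g x‖ₑ ^ p ≤
      2 ^ (p - 1) * (((Real.toNNReal C₂ : ℝ≥0) : ℝ≥0∞) ^ p * (ENNReal.ofReal (A ^ (p - 2)) * G) +
        C₁ * ENNReal.ofReal (L ^ 2 * lam ^ η * A ^ (p - 2)) * (3 * G)) := by
    refine le_trans (setLIntegral_mono' measurableSet_Icc hstep) ?_
    rw [lintegral_const_mul' _ _ h2p]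
    refine mul_le_mul_right ?_ _
    have hm3 : Measurable fun t => ∑' i, ∫⁻ x in S2 a b i ∩ W,
        ‖MM (m2 a b lam Lam t) (gi i) x‖ₑ ^ p :=
      Measurable.tsum fun i => (hmeas i).lintegral_prod_right'
    rw [lintegral_add_right _ hm3]
    refine add_le_add (le_of_eq ?_) ?_
    · rw [setLIntegral_const, Real.volume_Icc]
      norm_num
    · rw [lintegral_tsum fun i => ((hmeas i).lintegral_prod_right').aemeasurable]
      refine le_trans (ENNReal.tsum_le_tsum fun i => hS i) ?_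
      rw [ENNReal.tsum_mul_left]
      gcongr
  refine le_trans hmain ?_
  obtain ⟨a₀, ha₀⟩ : ∃ a₀ : ℝ≥0∞, a₀ = ENNReal.ofReal (A ^ (p - 2)) := ⟨_, rfl⟩
  obtain ⟨K, hK⟩ : ∃ K : ℝ≥0∞, K = ENNReal.ofReal (L ^ 2 * lam ^ η) := ⟨_, rfl⟩
  have hK1 : 1 ≤ K := by
    rw [hK, ENNReal.one_le_ofReal]
    have := Real.one_le_rpow hl hη.le
    nlinarith
  have hKA : ENNReal.ofReal (L ^ 2 * lam ^ η * A ^ (p - 2)) = K * a₀ := by
    rw [ENNReal.ofReal_mul (by positivity), hK, ha₀]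
  rw [hKA, ← ha₀]
  have e1 : ((2 ^ (p - 1) * ((Real.toNNReal C₂) ^ p + 3 * C₁) : ℝ≥0) : ℝ≥0∞) =
      2 ^ (p - 1) * (((Real.toNNReal C₂ : ℝ≥0) : ℝ≥0∞) ^ p + 3 * C₁) := by
    rw [ENNReal.coe_mul, ENNReal.coe_add, ENNReal.coe_mul,
      ENNReal.coe_rpow_of_nonneg _ (by linarith), ENNReal.coe_rpow_of_nonneg _ hp0]
    simp
  rw [e1]
  calc (2 : ℝ≥0∞) ^ (p - 1) * (((Real.toNNReal C₂ : ℝ≥0) : ℝ≥0∞) ^ p * (a₀ * G) +
        C₁ * (K * a₀) * (3 * G))
      = 2 ^ (p - 1) * (((Real.toNNReal C₂ : ℝ≥0) : ℝ≥0∞) ^ p * (1 * a₀ * G) +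
          3 * C₁ * (K * a₀ * G)) := by ring
    _ ≤ 2 ^ (p - 1) * (((Real.toNNReal C₂ : ℝ≥0) : ℝ≥0∞) ^ p * (K * a₀ * G) +
          3 * C₁ * (K * a₀ * G)) := by
        gcongr
    _ = _ := by ring

end Pool.Agent.H33.BR
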