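import Pool.Agent.H84.B2.Targets

/-! Module SAK: the amplitude of the kernel of a piece. -/

set_option autoImplicit false

namespace Pool.Agent.H33.BR

open MeasureTheory Set FourierTransform
open Pool.Agent.H84.B2 Pool.Agent.H84.BR Pool.Agent.H83.AR Pool.Agent.H93.AR Pool.Agent.H83.LS
  Pool.Agent.H54.LS Pool.Agent.H14.LS
open scoped ENNReal NNReal SchwartzMap

theorem eta0_one' {s : ℝ} (h : s ≤ 1) : eta0 s = 1 := by
  unfold eta0
  exact Real.smoothTransition.one_of_one_le (by linarith)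

theorem eta0_zero' {s : ℝ} (h : 2 ≤ s) : eta0 s = 0 := by
  unfold eta0
  exact Real.smoothTransition.zero_of_nonpos (by linarith)

theorem cd_eta0' : ContDiff ℝ (⊤ : ℕ∞) eta0 := by
  unfold eta0
  exact Real.smoothTransition.contDiff.comp (contDiff_const.sub contDiff_id)

/-- the two cutoffs -/
noncomputable def cf (i : Bool) : ℝ → ℝ := if i then eta0 else chi

theorem cf_zero (i : Bool) {s : ℝ} (h : 2 ≤ s) : cf i s = 0 := by
  unfold cf
  split_ifs
  · exact eta0_zero' h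
  · unfold chi
    rw [eta0_zero' h, eta0_zero' (by linarith), sub_zero]

theorem cd_eta0n {d : ℕ} : ContDiff ℝ (⊤ : ℕ∞) fun y : EE d => eta0 ‖y‖ := by
  rw [contDiff_iff_contDiffAt]
  intro y
  by_cases hy : y = 0
  · have h1 : (fun y : EE d => eta0 ‖y‖) =ᶠ[nhds y] fun _ => 1 := by
      have h2 : ∀ᶠ z : EE d in nhds y, ‖z‖ < 1 := by
        apply (continuous_norm.tendsto y).eventually_lt_const
        rw [hy, norm_zero]
        norm_num
      filter_upwards [h2] with z hz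
      exact eta0_one' (by linarith)
    exact contDiffAt_const.congr_of_eventuallyEq h1
  · exact cd_eta0'.contDiffAt.comp y (contDiffAt_norm ℝ hy)

theorem cd_cfn {d : ℕ} (i : Bool) : ContDiff ℝ (⊤ : ℕ∞) fun y : EE d => cf i ‖y‖ := by
  unfold cf
  split_ifs
  · exact cd_eta0n
  · have h1 : (fun y : EE d => chi ‖y‖) = fun y : EE d => eta0 ‖y‖ - eta0 ‖(2 : ℝ) • y‖ := by
      ext y
      unfold chi
      rw [norm_smul, Real.norm_of_nonneg (by norm_num : (0 : ℝ) ≤ 2)]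
    rw [h1]
    have h2 : ContDiff ℝ (⊤ : ℕ∞) fun y : EE d => (2 : ℝ) • y :=
      (contDiff_id (E := EE d)).const_smul (2 : ℝ)
    exact cd_eta0n.sub (cd_eta0n.comp h2)

theorem CT_cf {Lam : ℝ} {c : ℝ → ℝ} (h : CT Lam c) : ∃ i : Bool, ∀ s, c s = cf i (s / Lam) := by
  rcases h with h | h
  · exact ⟨true, fun s => by rw [h s]; rfl⟩
  · exact ⟨false, fun s => by rw [h s]; rfl⟩

theorem cd_p1 (a b : ℕ) : ContDiff ℝ (⊤ : ℕ∞) (p1 a b) := by
  rw [contDiff_euclidean]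
  intro i
  exact (EuclideanSpace.proj (𝕜 := ℝ) (Fin.castAdd b i)).contDiff

theorem cd_p2 (a b : ℕ) : ContDiff ℝ (⊤ : ℕ∞) (p2 a b) := by
  rw [contDiff_euclidean]
  intro i
  exact (EuclideanSpace.proj (𝕜 := ℝ) (Fin.natAdd a i)).contDiff

theorem p1_add (a b : ℕ) (x y : EE (a + b)) : p1 a b (x + y) = p1 a b x + p1 a b y := by
  ext i; rfl

theorem p2_add (a b : ℕ) (x y : EE (a + b)) : p2 a b (x + y) = p2 a b x + p2 a b y := by
  ext i; rfl

theorem p1_smul (a b : ℕ) (c : ℝ) (x : EE (a + b)) : p1 a b (c • x) = c • p1 a b x := by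
  ext i; rfl

theorem p2_smul (a b : ℕ) (c : ℝ) (x : EE (a + b)) : p2 a b (c • x) = c • p2 a b x := by
  ext i; rfl

theorem nsq (a b : ℕ) (x : EE (a + b)) : ‖x‖ ^ 2 = ‖p1 a b x‖ ^ 2 + ‖p2 a b x‖ ^ 2 := by
  rw [EuclideanSpace.norm_sq_eq, EuclideanSpace.norm_sq_eq, EuclideanSpace.norm_sq_eq,
    Fin.sum_univ_add]
  rfl

theorem p1_le (a b : ℕ) (x : EE (a + b)) : ‖p1 a b x‖ ≤ ‖x‖ := by
  have h := nsq a b x
  nlinarith [norm_nonneg (p1 a b x), norm_nonneg x, sq_nonneg ‖p2 a b x‖]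

theorem p2_le (a b : ℕ) (x : EE (a + b)) : ‖p2 a b x‖ ≤ ‖x‖ := by
  have h := nsq a b x
  nlinarith [norm_nonneg (p2 a b x), norm_nonneg x, sq_nonneg ‖p1 a b x‖]

/-- the universal amplitude -/
noncomputable def Ps (a b : ℕ) (i j : Bool) (q : (EE a × EE b × ℝ × ℝ) × (ℝ × EE (a + b))) : ℂ :=
  ((q.2.1 ^ (a + b - 1) * chi q.2.1 *
    cf i ‖q.2.1 • (q.1.1 + q.1.2.2.1 • p1 a b q.2.2)‖ *
    cf j ‖q.2.1 • (q.1.2.1 + q.1.2.2.2 • p2 a b q.2.2)‖ : ℝ) : ℂ)

theorem cd_Ps (a b : ℕ) (i j : Bool) : ContDiff ℝ (⊤ : ℕ∞) (Ps a b i j) := by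
  unfold Ps
  refine Complex.ofRealCLM.contDiff.comp ?_
  have hs : ContDiff ℝ (⊤ : ℕ∞) fun q : (EE a × EE b × ℝ × ℝ) × (ℝ × EE (a + b)) => q.2.1 :=
    contDiff_fst.comp contDiff_snd
  have hx : ContDiff ℝ (⊤ : ℕ∞) fun q : (EE a × EE b × ℝ × ℝ) × (ℝ × EE (a + b)) => q.2.2 :=
    contDiff_snd.comp contDiff_snd
  have h1 : ContDiff ℝ (⊤ : ℕ∞) fun q : (EE a × EE b × ℝ × ℝ) × (ℝ × EE (a + b)) =>
      q.2.1 • (q.1.1 + q.1.2.2.1 • p1 a b q.2.2) := by
    have h3 : ContDiff ℝ (⊤ : ℕ∞) fun q : (EE a × EE b × ℝ × ℝ) × (ℝ × EE (a + b)) =>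
        q.1.2.2.1 := contDiff_fst.comp (contDiff_snd.comp (contDiff_snd.comp contDiff_fst))
    have h4 : ContDiff ℝ (⊤ : ℕ∞) fun q : (EE a × EE b × ℝ × ℝ) × (ℝ × EE (a + b)) =>
        p1 a b q.2.2 := (cd_p1 a b).comp hx
    have h5 : ContDiff ℝ (⊤ : ℕ∞) fun q : (EE a × EE b × ℝ × ℝ) × (ℝ × EE (a + b)) =>
        q.1.1 := contDiff_fst.comp contDiff_fst
    exact hs.smul (h5.add (h3.smul h4))
  have h2 : ContDiff ℝ (⊤ : ℕ∞) fun q : (EE a × EE b × ℝ × ℝ) × (ℝ × EE (a + b)) =>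
      q.2.1 • (q.1.2.1 + q.1.2.2.2 • p2 a b q.2.2) := by
    have h3 : ContDiff ℝ (⊤ : ℕ∞) fun q : (EE a × EE b × ℝ × ℝ) × (ℝ × EE (a + b)) =>
        q.1.2.2.2 := contDiff_snd.comp (contDiff_snd.comp (contDiff_snd.comp contDiff_fst))
    have h4 : ContDiff ℝ (⊤ : ℕ∞) fun q : (EE a × EE b × ℝ × ℝ) × (ℝ × EE (a + b)) =>
        p2 a b q.2.2 := (cd_p2 a b).comp hx
    have h5 : ContDiff ℝ (⊤ : ℕ∞) fun q : (EE a × EE b × ℝ × ℝ) × (ℝ × EE (a + b)) =>
        q.1.2.1 := contDiff_fst.comp (contDiff_snd.comp contDiff_fst)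
    exact hs.smul (h5.add (h3.smul h4))
  exact (((hs.pow _).mul (chi_smooth.comp hs)).mul ((cd_cfn i).comp h1)).mul ((cd_cfn j).comp h2)

/-- the amplitude in terms of the universal one -/
theorem gK_eq (a b : ℕ) (i j : Bool) (c₁ c₂ : ℝ → ℝ) (lam Lam₁ Lam₂ δ : ℝ) (hl : 0 < lam)
    (h1 : 0 < Lam₁) (h2 : 0 < Lam₂) (hc1 : ∀ s, c₁ s = cf i (s / Lam₁))
    (hc2 : ∀ s, c₂ s = cf j (s / Lam₂)) (ζ : EE (a + b)) (q : ℝ × EE (a + b)) :
    gK a b c₁ c₂ lam (q.1, ζ + δ • q.2) = Ps a b i j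
      (((lam / Lam₁) • p1 a b ζ, (lam / Lam₂) • p2 a b ζ, lam / Lam₁ * δ, lam / Lam₂ * δ), q) := by
  unfold gK Ps
  simp only
  by_cases hs : chi q.1 = 0
  · rw [hs]
    simp
  · have hs0 : 0 < q.1 := by
      have := (chi_supp hs).1
      linarith
    have e1 : ‖q.1 • ((lam / Lam₁) • p1 a b ζ + (lam / Lam₁ * δ) • p1 a b q.2)‖ =
        lam * (q.1 * ‖p1 a b (ζ + δ • q.2)‖) / Lam₁ := by
      have : q.1 • ((lam / Lam₁) • p1 a b ζ + (lam / Lam₁ * δ) • p1 a b q.2) =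
          (q.1 * (lam / Lam₁)) • p1 a b (ζ + δ • q.2) := by
        rw [p1_add, p1_smul, smul_add, smul_add, smul_smul, smul_smul, smul_smul]
        congr 2
        ring
      rw [this, norm_smul, Real.norm_of_nonneg (by positivity)]
      ring
    have e2 : ‖q.1 • ((lam / Lam₂) • p2 a b ζ + (lam / Lam₂ * δ) • p2 a b q.2)‖ =
        lam * (q.1 * ‖p2 a b (ζ + δ • q.2)‖) / Lam₂ := by
      have : q.1 • ((lam / Lam₂) • p2 a b ζ + (lam / Lam₂ * δ) • p2 a b q.2) =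
          (q.1 * (lam / Lam₂)) • p2 a b (ζ + δ • q.2) := by
        rw [p2_add, p2_smul, smul_add, smul_add, smul_smul, smul_smul, smul_smul]
        congr 2
        ring
      rw [this, norm_smul, Real.norm_of_nonneg (by positivity)]
      ring
    rw [e1, e2, hc1, hc2]

/-- derivatives vanish where the function is locally zero -/
theorem ifd_zero {E F : Type*} [NormedAddCommGroup E] [NormedSpace ℝ E] [NormedAddCommGroup F]
    [NormedSpace ℝ F] (f : E → F) (x : E) (h : f =ᶠ[nhds x] fun _ => 0) (k : ℕ) :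
    iteratedFDeriv ℝ k f x = 0 := by
  have h1 := (h.iteratedFDeriv ℝ k).eq_of_nhds
  rw [h1]
  have h2 : iteratedFDeriv ℝ k (fun _ : E => (0 : F)) = 0 := iteratedFDeriv_fun_zero
  rw [h2]
  rfl

theorem big_zero {a : ℕ} (i : Bool) (V y : EE a) (ε s : ℝ) (hV : 20 < ‖V‖) (hε : 0 ≤ ε)
    (hε2 : ε ≤ 2) (hy : ‖y‖ ≤ 1 / 2) (hs : 1 / 2 ≤ s) : cf i ‖s • (V + ε • y)‖ = 0 := by
  apply cf_zero
  rw [norm_smul, Real.norm_of_nonneg (by linarith)]
  have h1 : ‖ε • y‖ ≤ 1 := by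
    rw [norm_smul, Real.norm_of_nonneg hε]
    nlinarith [norm_nonneg y]
  have h2 : ‖V‖ - ‖ε • y‖ ≤ ‖V + ε • y‖ := by
    have := norm_sub_norm_le V (-(ε • y))
    rwa [norm_neg, sub_neg_eq_add] at this
  nlinarith

theorem pf_sak (hCP : T_CP) : T_SAK := by
  intro a b M ha hb
  obtain ⟨K, hK⟩ : ∃ K : Set ((EE a × EE b × ℝ × ℝ) × (ℝ × EE (a + b))), K =
    (Metric.closedBall 0 20 ×ˢ (Metric.closedBall 0 20 ×ˢ (Icc 0 2 ×ˢ Icc 0 2))) ×ˢ
      (Icc (-4) 4 ×ˢ Metric.closedBall 0 (1 / 4)) := ⟨_, rfl⟩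
  have hKc : IsCompact K := by
    rw [hK]
    exact ((isCompact_closedBall _ _).prod ((isCompact_closedBall _ _).prod
      (isCompact_Icc.prod isCompact_Icc))).prod (isCompact_Icc.prod (isCompact_closedBall _ _))
  have hb1 : ∀ (i j : Bool) (k : ℕ), ∃ C : ℝ, ∀ q ∈ K,
      ‖iteratedFDeriv ℝ k (fun x => Ps a b i j (q.1, x)) q.2‖ ≤ C := fun i j k =>
    hCP _ _ _ k (Ps a b i j) univ K isOpen_univ (cd_Ps a b i j).contDiffOn hKc (subset_univ _)
  choose C hC using hb1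
  refine ⟨∑ i : Bool, ∑ j : Bool, ∑ k ∈ Finset.range (M + 1), |C i j k|, by positivity, ?_⟩
  intro lam Lam₁ Lam₂ c₁ c₂ hl hL1 hL2 hc1 hc2
  obtain ⟨i, hi⟩ := CT_cf hc1
  obtain ⟨j, hj⟩ := CT_cf hc2
  have hl0 : 0 < lam := by linarith
  have hsl : 0 < Real.sqrt lam := Real.sqrt_pos.2 hl0
  have hL1' : 0 < Lam₁ := hsl.trans_le hL1
  have hL2' : 0 < Lam₂ := hsl.trans_le hL2
  refine ⟨?_, ?_, ?_⟩
  · -- smoothness
    have h1 : gK a b c₁ c₂ lam = fun q : ℝ × EE (a + b) => Ps a b i j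
        (((lam / Lam₁) • p1 a b (0 : EE (a + b)), (lam / Lam₂) • p2 a b (0 : EE (a + b)),
          lam / Lam₁ * 1, lam / Lam₂ * 1), q) := by
      ext q
      rw [← gK_eq a b i j c₁ c₂ lam Lam₁ Lam₂ 1 hl0 hL1' hL2' hi hj 0 q]
      simp
    rw [h1]
    exact (cd_Ps a b i j).comp (contDiff_const.prodMk contDiff_id)
  · -- support
    intro q hq
    unfold gK at hq
    have h2 : chi q.1 ≠ 0 := by
      intro h3
      apply hq
      rw [h3]
      simp
    have h3 := chi_supp h2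
    constructor <;> linarith [h3.1, h3.2]
  · intro ζ hζ k hk q hq
    have hδ : ∀ Λ : ℝ, Real.sqrt lam ≤ Λ → 0 < Λ →
        0 ≤ lam / Λ * (2 / Real.sqrt lam) ∧ lam / Λ * (2 / Real.sqrt lam) ≤ 2 := by
      intro Λ h1 h2
      refine ⟨by positivity, ?_⟩
      have h3 : lam / Λ * (2 / Real.sqrt lam) = 2 * (Real.sqrt lam / Λ) := by
        have h4 : lam = Real.sqrt lam * Real.sqrt lam := (Real.mul_self_sqrt hl0.le).symm
        rw [show lam / Λ = Real.sqrt lam * Real.sqrt lam / Λ by rw [← h4]]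
        field_simp
      rw [h3]
      have h5 : Real.sqrt lam / Λ ≤ 1 := (div_le_one h2).2 h1
      linarith
    obtain ⟨h1a, h1b⟩ := hδ Lam₁ hL1 hL1'
    obtain ⟨h2a, h2b⟩ := hδ Lam₂ hL2 hL2'
    obtain ⟨V1, hV1⟩ : ∃ V1, V1 = (lam / Lam₁) • p1 a b ζ := ⟨_, rfl⟩
    obtain ⟨V2, hV2⟩ : ∃ V2, V2 = (lam / Lam₂) • p2 a b ζ := ⟨_, rfl⟩
    obtain ⟨ε1, hε1⟩ : ∃ ε1, ε1 = lam / Lam₁ * (2 / Real.sqrt lam) := ⟨_, rfl⟩
    obtain ⟨ε2, hε2⟩ : ∃ ε2, ε2 = lam / Lam₂ * (2 / Real.sqrt lam) := ⟨_, rfl⟩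
    have hfun : (fun q : ℝ × EE (a + b) => gK a b c₁ c₂ lam (q.1, ζ + (2 / Real.sqrt lam) • q.2)) =
        fun q => Ps a b i j ((V1, V2, ε1, ε2), q) := by
      ext q
      rw [gK_eq a b i j c₁ c₂ lam Lam₁ Lam₂ (2 / Real.sqrt lam) hl0 hL1' hL2' hi hj ζ q,
        hV1, hV2, hε1, hε2]
    rw [hfun]
    rw [← hε1] at h1a h1b
    rw [← hε2] at h2a h2b
    have hC0 : 0 ≤ ∑ i : Bool, ∑ j : Bool, ∑ k ∈ Finset.range (M + 1), |C i j k| := by positivity
    have hball : ∀ᶠ q' : ℝ × EE (a + b) in nhds q, ‖q'.2‖ < 1 / 2 := by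
      apply ((continuous_snd.norm).tendsto q).eventually_lt_const
      linarith
    by_cases hV1b : 20 < ‖V1‖
    · rw [ifd_zero, norm_zero]
      · exact hC0
      · filter_upwards [hball] with q' hq'
        unfold Ps
        simp only
        by_cases hs : chi q'.1 = 0
        · rw [hs]; simp
        · have hs1 := (chi_supp hs).1
          rw [big_zero i V1 _ ε1 q'.1 hV1b h1a h1b ((p1_le a b q'.2).trans hq'.le) (by linarith)]
          simp
    by_cases hV2b : 20 < ‖V2‖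
    · rw [ifd_zero, norm_zero]
      · exact hC0
      · filter_upwards [hball] with q' hq'
        unfold Ps
        simp only
        by_cases hs : chi q'.1 = 0
        · rw [hs]; simp
        · have hs1 := (chi_supp hs).1
          rw [big_zero j V2 _ ε2 q'.1 hV2b h2a h2b ((p2_le a b q'.2).trans hq'.le) (by linarith)]
          simp
    push Not at hV1b hV2b
    by_cases hs4 : q.1 ∈ Icc (-4 : ℝ) 4
    · have h5 := hC i j k ((V1, V2, ε1, ε2), q) (by
        rw [hK]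
        refine ⟨⟨?_, ?_, ⟨h1a, h1b⟩, ⟨h2a, h2b⟩⟩, hs4, ?_⟩
        · rw [mem_closedBall_zero_iff]; exact hV1b
        · rw [mem_closedBall_zero_iff]; exact hV2b
        · rw [mem_closedBall_zero_iff]; exact hq)
      refine h5.trans ((le_abs_self _).trans ?_)
      have h6 : |C i j k| ≤ ∑ k ∈ Finset.range (M + 1), |C i j k| :=
        Finset.single_le_sum (f := fun k => |C i j k|) (fun _ _ => abs_nonneg _)
          (Finset.mem_range.2 (by omega))
      have h7 : ∑ k ∈ Finset.range (M + 1), |C i j k| ≤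
          ∑ j : Bool, ∑ k ∈ Finset.range (M + 1), |C i j k| :=
        Finset.single_le_sum (f := fun j => ∑ k ∈ Finset.range (M + 1), |C i j k|)
          (fun _ _ => by positivity) (Finset.mem_univ j)
      have h8 : ∑ j : Bool, ∑ k ∈ Finset.range (M + 1), |C i j k| ≤
          ∑ i : Bool, ∑ j : Bool, ∑ k ∈ Finset.range (M + 1), |C i j k| :=
        Finset.single_le_sum (f := fun i => ∑ j : Bool, ∑ k ∈ Finset.range (M + 1), |C i j k|)
          (fun _ _ => by positivity) (Finset.mem_univ i)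
      exact h6.trans (h7.trans h8)
    · rw [ifd_zero, norm_zero]
      · exact hC0
      · have hev : ∀ᶠ q' : ℝ × EE (a + b) in nhds q, q'.1 < -2 ∨ 3 < q'.1 := by
          rw [mem_Icc, not_and_or, not_le, not_le] at hs4
          rcases hs4 with h9 | h9
          · have : ∀ᶠ q' : ℝ × EE (a + b) in nhds q, q'.1 < -2 :=
              (continuous_fst.tendsto q).eventually_lt_const (by linarith)
            exact this.mono fun _ h => Or.inl h
          · have : ∀ᶠ q' : ℝ × EE (a + b) in nhds q, 3 < q'.1 :=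
              (continuous_fst.tendsto q).eventually_const_lt (by linarith)
            exact this.mono fun _ h => Or.inr h
        filter_upwards [hev] with q' hq'
        unfold Ps
        simp only
        have hs : chi q'.1 = 0 := by
          by_contra hs
          have := chi_supp hs
          rcases hq' with h9 | h9 <;> linarith [this.1, this.2]
        rw [hs]
        simp

end Pool.Agent.H33.BR
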